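import Pool.Agent.helper60.DB.SpecI

namespace Pool.Agent.helper60.DB

open Polynomial Finset Pool.Agent.helper60.DK

section
variable {R : Type} [CommRing R]

theorem LE_ww : (ww : R[X]).comp (-X) = ww := by
  unfold ww
  simp

theorem LE_th (f : R[X]) : th (f.comp (-X)) = -(th f).comp (-X) := by
  unfold th
  rw [derivative_comp, mul_comp, LE_ww]
  simp

theorem LE_thn (f : R[X]) : th (-f) = -th f := by
  unfold th
  simp

theorem LE_A1 (P : R) : (A1 P).comp (-X) = -A1 P := by
  unfold A1
  simp

theorem LE_A2 (P : R) : (A2 P).comp (-X) = A2 P := by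
  unfold A2
  simp only [add_comp, mul_comp, LE_ww, sub_comp, pow_comp, X_comp, C_comp, one_comp, neg_comp, ofNat_comp]
  ring

theorem LE_A3 (P : R) : (A3 P).comp (-X) = -A3 P := by
  unfold A3
  simp only [add_comp, mul_comp, LE_ww, sub_comp, pow_comp, X_comp, C_comp, one_comp, neg_comp, ofNat_comp]
  ring

end

theorem LE : LE_stmt := by
  intro R _ P f
  unfold Lam
  rw [LE_th, LE_thn, LE_th, neg_neg, LE_th]
  simp only [add_comp, mul_comp, LE_A1, LE_A2, LE_A3]
  ring

end Pool.Agent.helper60.DB
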